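import Pool.Agent.Helper6.SW.Defs
import Pool.Agent.Helper16.UB.Mert

/-! S-4: reciprocals of integers composed of primes of a given set. -/

namespace Pool.Agent.Helper97.SW

open Finset Pool.Agent.Helper6.SW Pool.Agent.Helper16.UB

/-- splitting an integer into the part composed of primes of `S` and the rest -/
theorem exists_split (S : Finset ℕ) (n : ℕ) (hn : n ≠ 0) : ∃ m k : ℕ, n = m * k ∧
    m.primeFactors ⊆ S ∧ (∀ p ∈ k.primeFactors, p ∉ S) := by
  induction n using Nat.recOnMul with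
  | zero => exact absurd rfl hn
  | one => exact ⟨1, 1, by simp⟩
  | prime p hp =>
    by_cases h : p ∈ S
    · exact ⟨p, 1, by simp, by simpa [hp.primeFactors] using h, by simp⟩
    · exact ⟨1, p, by simp, by simp, by simpa [hp.primeFactors] using h⟩
  | mul a b iha ihb =>
    have ha : a ≠ 0 := by rintro rfl; simp at hn
    have hb : b ≠ 0 := by rintro rfl; simp at hn
    obtain ⟨m, k, h1, h2, h3⟩ := iha ha
    obtain ⟨m', k', h1', h2', h3'⟩ := ihb hb
    have hm : m ≠ 0 := by rintro rfl; simp at h1; exact ha h1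
    have hk : k ≠ 0 := by rintro rfl; simp at h1; exact ha h1
    have hm' : m' ≠ 0 := by rintro rfl; simp at h1'; exact hb h1'
    have hk' : k' ≠ 0 := by rintro rfl; simp at h1'; exact hb h1'
    refine ⟨m * m', k * k', by rw [h1, h1']; ring, ?_, ?_⟩
    · rw [Nat.primeFactors_mul hm hm']
      exact union_subset h2 h2'
    · rw [Nat.primeFactors_mul hk hk']
      intro p hp
      rcases mem_union.1 hp with h | h
      · exact h3 p h
      · exact h3' p h

/-- the multiplicative function `1/n` -/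
noncomputable def invHom : ℕ →* ℝ where
  toFun n := (n : ℝ)⁻¹
  map_one' := by simp
  map_mul' a b := by push_cast; rw [mul_inv]

theorem sum_factored_le (Q : Finset ℕ) (hQ : ∀ q ∈ Q, q.Prime) (Z : ℕ) :
    ∑ k ∈ (Icc 1 Z).filter (fun k => k.primeFactors ⊆ Q), (1 : ℝ) / k ≤
      ∏ q ∈ Q, (1 - 1 / (q : ℝ))⁻¹ := by
  have hlt : ∀ {p : ℕ}, p.Prime → ‖invHom p‖ < 1 := by
    intro p hp
    have hp1 : (1 : ℝ) < p := by exact_mod_cast hp.one_lt
    change ‖(p : ℝ)⁻¹‖ < 1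
    rw [Real.norm_of_nonneg (by positivity)]
    exact inv_lt_one_of_one_lt₀ hp1
  obtain ⟨h1, h2⟩ :=
    EulerProduct.summable_and_hasSum_factoredNumbers_prod_filter_prime_geometric hlt Q
  have h3 : Q.filter Nat.Prime = Q := filter_true_of_mem hQ
  rw [h3] at h2
  have h4 : ∏ q ∈ Q, (1 - 1 / (q : ℝ))⁻¹ = ∏ q ∈ Q, (1 - invHom q)⁻¹ := by
    refine prod_congr rfl fun q _ => ?_
    rw [one_div]; rfl
  rw [h4]
  set A := (Icc 1 Z).filter (fun k => k.primeFactors ⊆ Q) with hA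
  have hmem : ∀ k ∈ A, k ∈ Nat.factoredNumbers Q := by
    intro k hk
    rw [hA, mem_filter, mem_Icc] at hk
    exact Nat.mem_factoredNumbers_of_primeFactors_subset (by omega) hk.2
  have h5 : ∑ k ∈ A, (1 : ℝ) / k = ∑ k ∈ A.attach.map ⟨fun k => (⟨k.1, hmem k.1 k.2⟩ :
      Nat.factoredNumbers Q), fun a b h => by
        apply Subtype.ext
        exact congrArg (fun x : Nat.factoredNumbers Q => (x : ℕ)) h⟩, invHom k := by
    rw [sum_map, ← sum_attach A]
    refine sum_congr rfl fun k _ => ?_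
    rw [one_div]; rfl
  rw [h5]
  refine sum_le_hasSum _ ?_ h2
  intro i _
  change (0 : ℝ) ≤ ((i : ℕ) : ℝ)⁻¹
  positivity

theorem sum_le_mul (S Q : Finset ℕ) (Z : ℕ) (hQ : ∀ p : ℕ, p.Prime → p ≤ Z → p ∉ S → p ∈ Q) :
    ∑ n ∈ Icc 1 Z, (1 : ℝ) / n ≤
      (∑ m ∈ (Icc 1 Z).filter (fun k => k.primeFactors ⊆ S), (1 : ℝ) / m) *
      ∑ k ∈ (Icc 1 Z).filter (fun k => k.primeFactors ⊆ Q), (1 : ℝ) / k := by
  classical
  have hex : ∀ n : ℕ, ∃ mk : ℕ × ℕ, n ≠ 0 → n = mk.1 * mk.2 ∧ mk.1.primeFactors ⊆ S ∧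
      (∀ p ∈ mk.2.primeFactors, p ∉ S) := by
    intro n
    by_cases h : n = 0
    · exact ⟨(0, 0), fun h' => absurd h h'⟩
    · obtain ⟨m, k, h1⟩ := exists_split S n h
      exact ⟨(m, k), fun _ => h1⟩
  choose g hg using hex
  have hinj : Set.InjOn g (Icc 1 Z : Finset ℕ) := by
    intro a ha b hb hab
    have ha1 := mem_Icc.1 (mem_coe.1 ha)
    have hb1 := mem_Icc.1 (mem_coe.1 hb)
    rw [(hg a (by omega)).1, (hg b (by omega)).1, hab]
  rw [sum_mul_sum, ← sum_product']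
  have h1 : ∑ n ∈ Icc 1 Z, (1 : ℝ) / n =
      ∑ x ∈ (Icc 1 Z).image g, (1 : ℝ) / x.1 * (1 / x.2) := by
    rw [sum_image hinj]
    refine sum_congr rfl fun n hn => ?_
    have hn1 := mem_Icc.1 hn
    have h2 := (hg n (by omega)).1
    have h3 : (n : ℝ) = ((g n).1 : ℝ) * ((g n).2 : ℝ) := by exact_mod_cast h2
    rw [h3, one_div_mul_one_div]
  rw [h1]
  refine sum_le_sum_of_subset_of_nonneg ?_ fun x _ _ => by positivity
  intro x hx
  obtain ⟨n, hn, rfl⟩ := mem_image.1 hx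
  have hn1 := mem_Icc.1 hn
  obtain ⟨h2, h3, h4⟩ := hg n (by omega)
  have hm0 : (g n).1 ≠ 0 := by intro h; rw [h, zero_mul] at h2; omega
  have hk0 : (g n).2 ≠ 0 := by intro h; rw [h, mul_zero] at h2; omega
  have hm : (g n).1 ≤ Z := by
    have := Nat.le_of_dvd (by omega) (Dvd.intro _ h2.symm)
    omega
  have hk : (g n).2 ≤ Z := by
    have := Nat.le_of_dvd (by omega) (Dvd.intro_left _ h2.symm)
    omega
  rw [mem_product, mem_filter, mem_filter, mem_Icc, mem_Icc]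
  refine ⟨⟨⟨by omega, hm⟩, h3⟩, ⟨by omega, hk⟩, ?_⟩
  intro p hp
  refine hQ p (Nat.prime_of_mem_primeFactors hp) ?_ (h4 p hp)
  exact (Nat.le_of_mem_primeFactors hp).trans hk

theorem prod_PL_le : ∃ C : ℝ, 0 < C ∧ ∀ Y : ℕ, 2 ≤ Y →
    ∏ p ∈ PL Y, (1 - 1 / (p : ℝ))⁻¹ ≤ C * Real.log Y := by
  obtain ⟨C, hC⟩ := exists_W_le
  refine ⟨Real.exp (C + 1), Real.exp_pos _, fun Y hY => ?_⟩
  have hlog : 0 < Real.log Y := Real.log_pos (by exact_mod_cast hY)
  have h1 : ∀ p ∈ PL Y, (1 - 1 / (p : ℝ))⁻¹ ≤ Real.exp (1 / ((p : ℝ) - 1)) := by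
    intro p hp
    have hp1 : (1 : ℝ) < p := by exact_mod_cast (mem_PL.1 hp).2.one_lt
    have h2 : (1 - 1 / (p : ℝ))⁻¹ = 1 / ((p : ℝ) - 1) + 1 := by
      have h3 : (p : ℝ) - 1 ≠ 0 := by linarith
      have h4 : (p : ℝ) ≠ 0 := by linarith
      field_simp
      ring
    rw [h2]
    exact Real.add_one_le_exp _
  calc ∏ p ∈ PL Y, (1 - 1 / (p : ℝ))⁻¹
      ≤ ∏ p ∈ PL Y, Real.exp (1 / ((p : ℝ) - 1)) := by
        refine prod_le_prod (fun p hp => ?_) h1
        have hp1 : (1 : ℝ) < p := by exact_mod_cast (mem_PL.1 hp).2.one_lt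
        have : 1 / (p : ℝ) < 1 := by rw [div_lt_one (by linarith)]; exact hp1
        exact (inv_pos.2 (by linarith)).le
    _ = Real.exp (∑ p ∈ PL Y, 1 / ((p : ℝ) - 1)) := (Real.exp_sum _ _).symm
    _ ≤ Real.exp (Real.log (Real.log Y) + C + 1) := by
        apply Real.exp_le_exp.2
        have h3 := sum_inv_pred_le Y
        have h4 := hC Y hY
        linarith
    _ = Real.exp (C + 1) * Real.log Y := by
        rw [add_assoc, Real.exp_add, Real.exp_log hlog, mul_comm]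

theorem stNsum : StNsum := by
  classical
  obtain ⟨C, hC, hP⟩ := prod_PL_le
  refine ⟨1 / (4 * C), by positivity, fun Y S hY hS => ?_⟩
  set Z := Y / 2 with hZ
  have hZ1 : 1 ≤ Z := by omega
  have hlY : 0 < Real.log Y := Real.log_pos (by exact_mod_cast hY)
  set Q := PL Y \ S with hQ
  set T := ∑ m ∈ (Icc 1 Z).filter (fun k => k.primeFactors ⊆ S), (1 : ℝ) / m with hT
  have hfac : ∀ q : ℕ, q.Prime → 0 < (1 - 1 / (q : ℝ))⁻¹ := by
    intro q hq
    have hp1 : (1 : ℝ) < q := by exact_mod_cast hq.one_lt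
    have : 1 / (q : ℝ) < 1 := by rw [div_lt_one (by linarith)]; exact hp1
    exact inv_pos.2 (by linarith)
  have hSsub : S ⊆ PL Y := by
    intro q hq
    rw [mem_PL]
    exact ⟨(hS q hq).2, (hS q hq).1⟩
  have hSpos : 0 < ∏ q ∈ S, (1 - 1 / (q : ℝ))⁻¹ := prod_pos fun q hq => hfac q (hS q hq).1
  have hQp : ∀ q ∈ Q, q.Prime := fun q hq => (mem_PL.1 (mem_sdiff.1 hq).1).2
  have hQpos : 0 < ∏ q ∈ Q, (1 - 1 / (q : ℝ))⁻¹ := prod_pos fun q hq => hfac q (hQp q hq)
  have hsplit : (∏ q ∈ Q, (1 - 1 / (q : ℝ))⁻¹) * ∏ q ∈ S, (1 - 1 / (q : ℝ))⁻¹ ≤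
      C * Real.log Y := by
    rw [hQ, prod_sdiff hSsub]
    exact hP Y hY
  have hT0 : 0 ≤ T := sum_nonneg fun m _ => by positivity
  -- the main inequality
  have hmain : Real.log Y / 2 ≤ T * ∏ q ∈ Q, (1 - 1 / (q : ℝ))⁻¹ := by
    have h1 : Real.log Y / 2 ≤ ∑ n ∈ Icc 1 Z, (1 : ℝ) / n := by
      have h2 := log_add_one_le_harmonic Z
      rw [harmonic_eq_sum_Icc] at h2
      push_cast at h2
      have h3 : ∑ n ∈ Icc 1 Z, (1 : ℝ) / n = ∑ n ∈ Icc 1 Z, ((n : ℝ))⁻¹ :=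
        sum_congr rfl fun n _ => one_div _
      rw [h3]
      refine le_trans ?_ h2
      have h4 : (Y : ℝ) ≤ ((Z : ℝ) + 1) ^ 2 := by
        have h5 : Y ≤ (Z + 1) ^ 2 := by
          have h6 : Y ≤ 2 * Z + 1 := by omega
          nlinarith
        exact_mod_cast h5
      have h5 : Real.log Y ≤ Real.log (((Z : ℝ) + 1) ^ 2) :=
        Real.log_le_log (by positivity) h4
      rw [Real.log_pow] at h5
      push_cast at h5
      linarith
    have h2 := sum_le_mul S Q Z (by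
      intro p hp hpZ hpS
      rw [hQ, mem_sdiff, mem_PL]
      exact ⟨⟨by omega, hp⟩, hpS⟩)
    have h3 := sum_factored_le Q hQp Z
    exact h1.trans (h2.trans (mul_le_mul_of_nonneg_left h3 hT0))
  have hTlow : 1 / (2 * C) * ∏ q ∈ S, (1 - 1 / (q : ℝ))⁻¹ ≤ T := by
    set a := ∏ q ∈ S, (1 - 1 / (q : ℝ))⁻¹ with ha
    set b := ∏ q ∈ Q, (1 - 1 / (q : ℝ))⁻¹ with hb
    have h1 : Real.log Y / 2 * a ≤ T * (C * Real.log Y) := by
      calc Real.log Y / 2 * a ≤ T * b * a := mul_le_mul_of_nonneg_right hmain hSpos.le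
        _ = T * (b * a) := by ring
        _ ≤ T * (C * Real.log Y) := mul_le_mul_of_nonneg_left hsplit hT0
    have h2 : Real.log Y * (a / 2) ≤ Real.log Y * (T * C) := by nlinarith
    have h3 := le_of_mul_le_mul_left h2 hlY
    rw [div_mul_eq_mul_div, one_mul, div_le_iff₀ (by positivity)]
    linarith
  -- comparison of the sum with `T`
  have hfin : T / 2 ≤
      ∑ m ∈ (Icc 1 Y).filter (fun m => m.primeFactors ⊆ S ∧ (2 ∈ S → 2 ∣ m)), (1 : ℝ) / m := by
    by_cases h2 : 2 ∈ S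
    · have h1 : T / 2 = ∑ m ∈ ((Icc 1 Z).filter (fun k => k.primeFactors ⊆ S)).image
          (fun m : ℕ => (2 * m : ℕ)), (1 : ℝ) / (m : ℕ) := by
        rw [sum_image (by intro a _ b _ h; simpa using h), hT, sum_div]
        refine sum_congr rfl fun m _ => ?_
        push_cast
        rw [div_div, mul_comm]
      rw [h1]
      refine sum_le_sum_of_subset_of_nonneg ?_ fun x _ _ => by positivity
      intro x hx
      obtain ⟨m, hm, rfl⟩ := mem_image.1 hx
      rw [mem_filter, mem_Icc] at hm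
      rw [mem_filter, mem_Icc]
      refine ⟨⟨by omega, by omega⟩, ?_, fun _ => dvd_mul_right _ _⟩
      rw [Nat.primeFactors_mul (by norm_num) (by omega), Nat.prime_two.primeFactors]
      exact union_subset (by simpa using h2) hm.2
    · have h1 : T ≤ ∑ m ∈ (Icc 1 Y).filter (fun m => m.primeFactors ⊆ S ∧ (2 ∈ S → 2 ∣ m)),
          (1 : ℝ) / m := by
        refine sum_le_sum_of_subset_of_nonneg ?_ fun x _ _ => by positivity
        intro x hx
        rw [mem_filter, mem_Icc] at hx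
        rw [mem_filter, mem_Icc]
        exact ⟨⟨hx.1.1, by omega⟩, hx.2, fun h => absurd h h2⟩
      linarith
  refine le_trans ?_ hfin
  have h5 : 1 / (4 * C) * ∏ q ∈ S, (1 - 1 / (q : ℝ))⁻¹ =
      (1 / (2 * C) * ∏ q ∈ S, (1 - 1 / (q : ℝ))⁻¹) / 2 := by
    field_simp
    ring
  rw [h5]
  linarith

end Pool.Agent.Helper97.SW
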