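import Pool.Agent.Helper97.SW.Nsum

/-! S-3: primes of a window avoiding one nonzero class modulo each small prime. -/

namespace Pool.Agent.Helper97.SW

open Finset Pool.Agent.Helper6.SW Pool.Agent.Helper16.UB

theorem coprime_prod {s : Finset ℕ} (hs : ∀ q ∈ s, q.Prime) {p : ℕ} (hp : p.Prime)
    (h : p ∉ s) : Nat.Coprime p (∏ q ∈ s, q) := by
  refine Nat.Coprime.prod_right fun q hq => ?_
  rw [Nat.coprime_primes hp (hs q hq)]
  rintro rfl
  exact h hq

theorem totient_prod {s : Finset ℕ} (hs : ∀ q ∈ s, q.Prime) :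
    (∏ q ∈ s, q).totient = ∏ q ∈ s, (q - 1) := by
  classical
  induction s using Finset.induction_on with
  | empty => simp
  | insert a s ha ih =>
    rw [prod_insert ha, prod_insert ha, Nat.totient_mul
      (coprime_prod (fun q hq => hs q (mem_insert_of_mem hq)) (hs a (mem_insert_self a s)) ha),
      Nat.totient_prime (hs a (mem_insert_self a s)),
      ih fun q hq => hs q (mem_insert_of_mem hq)]

theorem squarefree_prod {s : Finset ℕ} (hs : ∀ q ∈ s, q.Prime) : Squarefree (∏ q ∈ s, q) := by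
  refine Finset.squarefree_prod_of_pairwise_isCoprime (fun p hp q hq hpq => ?_)
    fun p hp => (hs p hp).squarefree
  change IsRelPrime p q
  rw [← Nat.coprime_iff_isRelPrime]
  exact (Nat.coprime_primes (hs p hp) (hs q hq)).2 hpq

theorem exists_crt (s : Finset ℕ) (hs : ∀ q ∈ s, q.Prime) (r : ℕ → ℤ) :
    ∃ b : ℕ, ∀ q ∈ s, (q : ℤ) ∣ (b : ℤ) - r q := by
  obtain ⟨b, hb⟩ := Nat.chineseRemainderOfFinset (fun q => ((r q) % q).toNat) (fun q => q) s
    (fun q hq => (hs q hq).ne_zero) (by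
      intro p hp q hq hpq
      exact (Nat.coprime_primes (hs p hp) (hs q hq)).2 hpq)
  refine ⟨b, fun q hq => ?_⟩
  have h1 := hb q hq
  have h2 : (((r q) % q).toNat : ℤ) = r q % q := by
    rw [Int.toNat_of_nonneg]
    exact Int.emod_nonneg _ (by exact_mod_cast (hs q hq).ne_zero)
  have h3 : (q : ℤ) ∣ (((r q) % q).toNat : ℤ) - b := (Nat.modEq_iff_dvd).1 h1
  rw [h2] at h3
  have h4 : (q : ℤ) ∣ r q % q - r q := by
    refine ⟨-(r q / q), ?_⟩
    have := Int.emod_add_mul_ediv (r q) q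
    linarith
  have h5 : (b : ℤ) - r q = -(r q % q - b) + (r q % q - r q) := by ring
  rw [h5]
  exact dvd_add ((dvd_neg).2 h3) h4

theorem modEq_prod_iff {s : Finset ℕ} (hs : ∀ q ∈ s, q.Prime) {r : ℕ → ℤ} {b p : ℕ}
    (hb : ∀ q ∈ s, (q : ℤ) ∣ (b : ℤ) - r q) :
    p ≡ b [MOD ∏ q ∈ s, q] ↔ ∀ q ∈ s, (q : ℤ) ∣ (p : ℤ) - r q := by
  rw [Nat.modEq_iff_dvd]
  constructor
  · intro h q hq
    have h1 : (q : ℤ) ∣ ((∏ q ∈ s, q : ℕ) : ℤ) := by exact_mod_cast dvd_prod_of_mem _ hq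
    have h2 := h1.trans h
    have h3 : (p : ℤ) - r q = (b - r q) - (b - p) := by ring
    rw [h3]
    exact dvd_sub (hb q hq) h2
  · intro h
    push_cast
    refine Finset.prod_dvd_of_coprime ?_ ?_
    · intro p hp q hq hpq
      exact Nat.isCoprime_iff_coprime.2 ((Nat.coprime_primes (hs p hp) (hs q hq)).2 hpq)
    · intro q hq
      have h3 : (b : ℤ) - p = (b - r q) - (p - r q) := by ring
      rw [h3]
      exact dvd_sub (hb q hq) (h q hq)

theorem prod_sq_aux (N : ℕ) (hN : 1 ≤ N) :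
    ∏ n ∈ Icc 2 N, (1 - 1 / (n : ℝ) ^ 2) = ((N : ℝ) + 1) / (2 * (N : ℝ)) := by
  induction N, hN using Nat.le_induction with
  | base => norm_num
  | succ N hN ih =>
    rw [prod_Icc_succ_top (by omega), ih]
    have hN0 : (N : ℝ) ≠ 0 := by
      have : 0 < N := hN
      positivity
    have hN1 : (N : ℝ) + 1 ≠ 0 := by positivity
    push_cast
    field_simp
    ring

theorem prod_ratio (S : Finset ℕ) (hS : ∀ q ∈ S, 3 ≤ q) :
    (1 / 2) * ∏ q ∈ S, (1 - 1 / (q : ℝ)) ≤ ∏ q ∈ S, (1 - 1 / ((q : ℝ) - 1)) := by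
  classical
  have h1 : ∏ q ∈ S, (1 - 1 / ((q : ℝ) - 1)) =
      (∏ q ∈ S, (1 - 1 / ((q : ℝ) - 1) ^ 2)) * ∏ q ∈ S, (1 - 1 / (q : ℝ)) := by
    rw [← prod_mul_distrib]
    refine prod_congr rfl fun q hq => ?_
    have hq3 : (3 : ℝ) ≤ q := by exact_mod_cast hS q hq
    have h2 : (q : ℝ) - 1 ≠ 0 := by linarith
    have h3 : (q : ℝ) ≠ 0 := by linarith
    field_simp
    ring
  rw [h1]
  refine mul_le_mul_of_nonneg_right ?_ (prod_nonneg fun q hq => ?_)
  · -- the product over all integers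
    set N := (S.sup id) + 1 with hN
    have h2 : ∏ q ∈ S, (1 - 1 / ((q : ℝ) - 1) ^ 2) =
        ∏ n ∈ S.image (fun q : ℕ => q - 1), (1 - 1 / (n : ℝ) ^ 2) := by
      rw [prod_image (by
        intro a ha b hb hab
        have h3 := hS a ha
        have h4 := hS b hb
        simp only at hab
        omega)]
      refine prod_congr rfl fun q hq => ?_
      have := hS q hq
      rw [Nat.cast_sub (by omega)]
      push_cast
      rfl
    have hsub : S.image (fun q : ℕ => q - 1) ⊆ Icc 2 N := by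
      intro n hn
      obtain ⟨q, hq, rfl⟩ := mem_image.1 hn
      have h3 := hS q hq
      have h4 : q ≤ S.sup id := Finset.le_sup (f := id) hq
      rw [mem_Icc]
      omega
    rw [h2]
    have h3 : ∏ n ∈ Icc 2 N, (1 - 1 / (n : ℝ) ^ 2) ≤
        ∏ n ∈ S.image (fun q : ℕ => q - 1), (1 - 1 / (n : ℝ) ^ 2) := by
      have hf : ∀ n ∈ Icc 2 N, 0 ≤ (1 - 1 / (n : ℝ) ^ 2) ∧ (1 - 1 / (n : ℝ) ^ 2) ≤ 1 := by
        intro n hn
        have h5 : (2 : ℝ) ≤ n := by exact_mod_cast (mem_Icc.1 hn).1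
        have h6 : 1 / (n : ℝ) ^ 2 ≤ 1 := by
          rw [div_le_one (by positivity)]
          nlinarith
        have h7 : 0 ≤ 1 / (n : ℝ) ^ 2 := by positivity
        constructor <;> linarith
      rw [← prod_sdiff hsub]
      have h8 : ∏ n ∈ Icc 2 N \ S.image (fun q : ℕ => q - 1), (1 - 1 / (n : ℝ) ^ 2) ≤ 1 :=
        prod_le_one (fun n hn => (hf n (mem_sdiff.1 hn).1).1) fun n hn =>
          (hf n (mem_sdiff.1 hn).1).2
      have h9 : 0 ≤ ∏ n ∈ S.image (fun q : ℕ => q - 1), (1 - 1 / (n : ℝ) ^ 2) :=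
        prod_nonneg fun n hn => (hf n (hsub hn)).1
      nlinarith
    refine le_trans ?_ h3
    rw [prod_sq_aux N (by omega)]
    have hN0 : (0 : ℝ) < N := by
      have : 0 < N := by omega
      exact_mod_cast this
    rw [div_le_div_iff₀ (by norm_num) (by positivity)]
    linarith
  · have hq3 : (3 : ℝ) ≤ q := by exact_mod_cast hS q hq
    have : 1 / (q : ℝ) ≤ 1 := by rw [div_le_one (by linarith)]; linarith
    linarith

/-- the sieve inequality for one `X` -/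
theorem sieve_lower {V X : ℝ} {k : ℕ} (S : Finset ℕ) (hS : ∀ q ∈ S, q.Prime ∧ 3 ≤ q)
    (r : ℕ → ℤ) (hr : ∀ q ∈ S, ¬ (q : ℤ) ∣ r q) (l : Finset ℕ → ℝ) (E B : ℝ)
    (hl : ∀ s, |l s| ≤ E)
    (hl1 : ∀ g : ℕ → ℝ, (∀ q ∈ S, 0 ≤ g q) → (∀ q ∈ S, g q ≤ 1) →
      ∑ s ∈ S.powerset, l s * ∏ q ∈ s, g q ≤ ∏ q ∈ S, (1 - g q))
    (hl2 : (1 / 2) * ∏ q ∈ S, (1 - 1 / ((q : ℝ) - 1)) ≤
      ∑ s ∈ S.powerset, l s * ∏ q ∈ s, (1 / ((q : ℝ) - 1)))
    (hw : ∀ p ∈ PX V X, 0 ≤ Real.log p * om V k X p)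
    (hM : 0 ≤ Mass V k X)
    (hBV : ∀ b : ℕ → ℕ, (∀ s ⊆ S, Nat.Coprime (b (∏ q ∈ s, q)) (∏ q ∈ s, q)) →
      ∑ d ∈ (S.powerset.filter (fun s => l s ≠ 0)).image (fun s => ∏ q ∈ s, q),
        |EW V k X d (b d)| ≤ B) :
    Mass V k X * ((1 / 2) * ∏ q ∈ S, (1 - 1 / ((q : ℝ) - 1))) - E * B ≤
      ∑ p ∈ (PX V X).filter (fun p : ℕ => ∀ q ∈ S, ¬ (q : ℤ) ∣ (p : ℤ) - r q),
        Real.log p * om V k X p := by
  classical
  have hSp : ∀ q ∈ S, q.Prime := fun q hq => (hS q hq).1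
  -- the residue classes
  have hex : ∀ s : Finset ℕ, ∃ b : ℕ, s ⊆ S → ∀ q ∈ s, (q : ℤ) ∣ (b : ℤ) - r q := by
    intro s
    by_cases h : s ⊆ S
    · obtain ⟨b, hb⟩ := exists_crt s (fun q hq => hSp q (h hq)) r
      exact ⟨b, fun _ => hb⟩
    · exact ⟨0, fun h' => absurd h' h⟩
  choose bs hbs using hex
  set b : ℕ → ℕ := fun d => bs d.primeFactors with hb
  have hbd : ∀ s ⊆ S, ∀ q ∈ s, (q : ℤ) ∣ (b (∏ q ∈ s, q) : ℤ) - r q := by
    intro s hs
    have h1 : (∏ q ∈ s, q).primeFactors = s := Nat.primeFactors_prod fun q hq => hSp q (hs hq)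
    rw [hb]
    simp only [h1]
    exact hbs s hs
  have hcop : ∀ s ⊆ S, Nat.Coprime (b (∏ q ∈ s, q)) (∏ q ∈ s, q) := by
    intro s hs
    refine Nat.Coprime.prod_right fun q hq => ?_
    rw [Nat.coprime_comm, (hSp q (hs hq)).coprime_iff_not_dvd]
    intro h
    have h1 := hbd s hs q hq
    have h2 : (q : ℤ) ∣ (b (∏ q ∈ s, q) : ℤ) := by exact_mod_cast h
    refine hr q (hs hq) ?_
    have h3 : r q = (b (∏ q ∈ s, q) : ℤ) - ((b (∏ q ∈ s, q) : ℤ) - r q) := by ring
    rw [h3]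
    exact dvd_sub h2 h1
  have hB := hBV b hcop
  -- the indicator functions
  set g : ℕ → ℕ → ℝ := fun p q => if (q : ℤ) ∣ (p : ℤ) - r q then 1 else 0 with hg
  have hg0 : ∀ p q, 0 ≤ g p q := by
    intro p q
    simp only [hg]
    split_ifs <;> norm_num
  have hg1 : ∀ p q, g p q ≤ 1 := by
    intro p q
    simp only [hg]
    split_ifs <;> norm_num
  have hind : ∑ p ∈ (PX V X).filter (fun p : ℕ => ∀ q ∈ S, ¬ (q : ℤ) ∣ (p : ℤ) - r q),
      Real.log p * om V k X p =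
      ∑ p ∈ PX V X, Real.log p * om V k X p * ∏ q ∈ S, (1 - g p q) := by
    rw [sum_filter]
    refine sum_congr rfl fun p _ => ?_
    split_ifs with h
    · have h1 : ∏ q ∈ S, (1 - g p q) = 1 := by
        refine prod_eq_one fun q hq => ?_
        simp only [hg]
        rw [if_neg (h q hq), sub_zero]
      rw [h1, mul_one]
    · push Not at h
      obtain ⟨q, hq, hq2⟩ := h
      have h1 : ∏ q ∈ S, (1 - g p q) = 0 := by
        refine prod_eq_zero hq ?_
        simp only [hg]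
        rw [if_pos hq2, sub_self]
      rw [h1, mul_zero]
  rw [hind]
  have hlow : ∑ s ∈ S.powerset, l s * ∑ p ∈ PX V X, Real.log p * om V k X p * ∏ q ∈ s, g p q ≤
      ∑ p ∈ PX V X, Real.log p * om V k X p * ∏ q ∈ S, (1 - g p q) := by
    have h1 : ∑ s ∈ S.powerset, l s * ∑ p ∈ PX V X, Real.log p * om V k X p * ∏ q ∈ s, g p q =
        ∑ p ∈ PX V X, Real.log p * om V k X p * ∑ s ∈ S.powerset, l s * ∏ q ∈ s, g p q := by
      simp_rw [mul_sum]
      rw [sum_comm]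
      refine sum_congr rfl fun p _ => sum_congr rfl fun s _ => ?_
      ring
    rw [h1]
    refine sum_le_sum fun p hp => mul_le_mul_of_nonneg_left ?_ (hw p hp)
    exact hl1 (g p) (fun q _ => hg0 p q) fun q _ => hg1 p q
  refine le_trans ?_ hlow
  -- the progressions
  have hprog : ∀ s ∈ S.powerset, ∑ p ∈ PX V X, Real.log p * om V k X p * ∏ q ∈ s, g p q =
      Mass V k X * ∏ q ∈ s, (1 / ((q : ℝ) - 1)) + EW V k X (∏ q ∈ s, q) (b (∏ q ∈ s, q)) := by
    intro s hs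
    rw [mem_powerset] at hs
    have hsp : ∀ q ∈ s, q.Prime := fun q hq => hSp q (hs hq)
    have h1 : ∑ p ∈ PX V X, Real.log p * om V k X p * ∏ q ∈ s, g p q =
        ∑ p ∈ (PX V X).filter (fun p => p ≡ b (∏ q ∈ s, q) [MOD ∏ q ∈ s, q]),
          Real.log p * om V k X p := by
      rw [sum_filter]
      refine sum_congr rfl fun p _ => ?_
      have h2 := modEq_prod_iff (p := p) hsp (hbd s hs)
      split_ifs with h
      · have h3 : ∏ q ∈ s, g p q = 1 := by
          refine prod_eq_one fun q hq => ?_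
          simp only [hg]
          rw [if_pos (h2.1 h q hq)]
        rw [h3, mul_one]
      · have h4 : ∃ q ∈ s, ¬ (q : ℤ) ∣ (p : ℤ) - r q := by
          by_contra hcon
          push Not at hcon
          exact h (h2.2 hcon)
        obtain ⟨q, hq, hq2⟩ := h4
        have h3 : ∏ q ∈ s, g p q = 0 := by
          refine prod_eq_zero hq ?_
          simp only [hg]
          rw [if_neg hq2]
        rw [h3, mul_zero]
    rw [h1]
    unfold EW
    have h5 : (((∏ q ∈ s, q).totient : ℕ) : ℝ) = ∏ q ∈ s, ((q : ℝ) - 1) := by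
      rw [totient_prod hsp, Nat.cast_prod]
      refine prod_congr rfl fun q hq => ?_
      rw [Nat.cast_sub (hsp q hq).one_le]
      simp
    rw [h5]
    have h6 : ∏ q ∈ s, (1 / ((q : ℝ) - 1)) = 1 / ∏ q ∈ s, ((q : ℝ) - 1) := by
      rw [prod_div_distrib, prod_const_one]
    rw [h6]
    ring
  have hsum : ∑ s ∈ S.powerset, l s * ∑ p ∈ PX V X, Real.log p * om V k X p * ∏ q ∈ s, g p q =
      Mass V k X * ∑ s ∈ S.powerset, l s * ∏ q ∈ s, (1 / ((q : ℝ) - 1)) +
        ∑ s ∈ S.powerset, l s * EW V k X (∏ q ∈ s, q) (b (∏ q ∈ s, q)) := by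
    rw [mul_sum, ← sum_add_distrib]
    refine sum_congr rfl fun s hs => ?_
    rw [hprog s hs]
    ring
  rw [hsum]
  have hmain : Mass V k X * ((1 / 2) * ∏ q ∈ S, (1 - 1 / ((q : ℝ) - 1))) ≤
      Mass V k X * ∑ s ∈ S.powerset, l s * ∏ q ∈ s, (1 / ((q : ℝ) - 1)) :=
    mul_le_mul_of_nonneg_left hl2 hM
  have hE : 0 ≤ E := (abs_nonneg _).trans (hl ∅)
  have herr : |∑ s ∈ S.powerset, l s * EW V k X (∏ q ∈ s, q) (b (∏ q ∈ s, q))| ≤ E * B := by
    have h1 : ∑ s ∈ S.powerset, l s * EW V k X (∏ q ∈ s, q) (b (∏ q ∈ s, q)) =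
        ∑ s ∈ S.powerset.filter (fun s => l s ≠ 0),
          l s * EW V k X (∏ q ∈ s, q) (b (∏ q ∈ s, q)) := by
      rw [sum_filter]
      refine sum_congr rfl fun s _ => ?_
      split_ifs with h
      · rfl
      · push Not at h
        rw [h, zero_mul]
    rw [h1]
    refine (abs_sum_le_sum_abs _ _).trans ?_
    have h2 : ∑ s ∈ S.powerset.filter (fun s => l s ≠ 0),
        |l s * EW V k X (∏ q ∈ s, q) (b (∏ q ∈ s, q))| ≤
        ∑ s ∈ S.powerset.filter (fun s => l s ≠ 0),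
          E * |EW V k X (∏ q ∈ s, q) (b (∏ q ∈ s, q))| := by
      refine sum_le_sum fun s _ => ?_
      rw [abs_mul]
      exact mul_le_mul_of_nonneg_right (hl s) (abs_nonneg _)
    refine h2.trans ?_
    rw [← mul_sum]
    refine mul_le_mul_of_nonneg_left ?_ hE
    rw [sum_image (by
      intro s hs t ht hst
      have hs' := mem_powerset.1 (mem_filter.1 (mem_coe.1 hs)).1
      have ht' := mem_powerset.1 (mem_filter.1 (mem_coe.1 ht)).1
      have h3 := Nat.primeFactors_prod (s := s) fun q hq => hSp q (hs' hq)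
      have h4 := Nat.primeFactors_prod (s := t) fun q hq => hSp q (ht' hq)
      simp only at hst
      rw [← h3, ← h4, hst])] at hB
    exact hB
  have := (abs_le.1 herr).1
  linarith

theorem om_nonneg (V : ℝ) (k : ℕ) (X : ℝ) (n : ℕ) : 0 ≤ om V k X n := by
  unfold Pool.Agent.Helper6.SW.om tent
  have h1 : 0 ≤ Real.log (n : ℝ) := Real.log_natCast_nonneg n
  have h2 : (0 : ℝ) ≤ (n : ℝ) ^ (-(1 + 1 / Real.log X)) := by positivity
  have h3 : 0 ≤ max 0 (1 - |Real.log n - Real.log X| / V) := le_max_left _ _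
  positivity

theorem stPSL_of (hBV : StBV) (hMass : StMass) (hMin : StMinorant) : StPSL := by
  classical
  obtain ⟨V, hV, hM⟩ := hMass
  obtain ⟨A, hA, hmin⟩ := hMin
  obtain ⟨k, X₁, hBV⟩ := hBV V 3 hV
  obtain ⟨c, C, X₂, hc, hC, hM⟩ := hM k
  obtain ⟨C₃, hC₃, hP⟩ := prod_PL_le
  have hA0 : (0 : ℝ) < A := by exact_mod_cast hA
  have hA1 : (1 : ℝ) ≤ A := by exact_mod_cast hA
  refine ⟨V, 1 / (64 * A), c / (8 * C),
    max (max X₁ X₂) (max ((2 : ℝ) ^ (64 * A)) (max (Real.exp 2) (Real.exp (16 * C₃ / c)))), hV,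
    by positivity, by positivity, fun X hX y S r hy hS => ?_⟩
  have hX1 : X₁ ≤ X := le_trans (le_trans (le_max_left _ _) (le_max_left _ _)) hX
  have hX2 : X₂ ≤ X := le_trans (le_trans (le_max_right _ _) (le_max_left _ _)) hX
  have hX3 : (2 : ℝ) ^ (64 * A) ≤ X := le_trans (le_trans (le_max_left _ _) (le_max_right _ _)) hX
  have hX4 : Real.exp 2 ≤ X := le_trans (le_trans (le_trans (le_max_left _ _) (le_max_right _ _))
    (le_max_right _ _)) hX
  have hX5 : Real.exp (16 * C₃ / c) ≤ X := le_trans (le_trans (le_trans (le_max_right _ _)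
    (le_max_right _ _)) (le_max_right _ _)) hX
  have hX0 : 0 < X := (Real.exp_pos 2).trans_le hX4
  have hXone : 1 ≤ X := le_trans (by have := Real.add_one_le_exp (2 : ℝ); linarith) hX4
  obtain ⟨L, hL⟩ : ∃ L, L = Real.log X := ⟨_, rfl⟩
  have hL2 : 2 ≤ L := by
    rw [hL, Real.le_log_iff_exp_le hX0]; exact hX4
  have hL5 : 16 * C₃ / c ≤ L := by
    rw [hL, Real.le_log_iff_exp_le hX0]; exact hX5
  have hL0 : 0 < L := by linarith
  obtain ⟨hm1, hm2⟩ := hM X hX2
  rw [← hL] at hm1 hm2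
  -- sizes
  set E := Nat.log 2 y with hE
  have hyc : (1 : ℝ) ≤ X ^ (1 / (64 * (A : ℝ))) := Real.one_le_rpow hXone (by positivity)
  have h2E : (2 : ℝ) ^ E ≤ X ^ (1 / (64 * (A : ℝ))) := by
    by_cases h0 : y = 0
    · rw [hE, h0]; simpa using hyc
    · have h1 : 2 ^ E ≤ y := Nat.pow_log_le_self 2 h0
      have h2 : (2 : ℝ) ^ E ≤ y := by exact_mod_cast h1
      exact h2.trans hy
  have hEL : (E : ℝ) + 2 ≤ 2 * L := by
    have h1 := Real.log_le_log (by positivity) h2E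
    rw [Real.log_pow, Real.log_rpow hX0, ← hL] at h1
    have h2 : (1 : ℝ) / 2 ≤ Real.log 2 := by
      have := Real.log_two_gt_d9
      linarith
    have h3 : 1 / (64 * (A : ℝ)) * L ≤ 1 / 64 * L := by
      apply mul_le_mul_of_nonneg_right _ hL0.le
      apply one_div_le_one_div_of_le (by norm_num)
      linarith
    have h4 : (E : ℝ) * (1 / 2) ≤ E * Real.log 2 := mul_le_mul_of_nonneg_left h2 (by positivity)
    linarith
  have hD : (2 : ℝ) ^ (A * (E + 1)) ≤ X ^ (1 / 32 : ℝ) := by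
    have h1 : (2 : ℝ) ^ (A * (E + 1)) = (2 : ℝ) ^ A * ((2 : ℝ) ^ E) ^ A := by
      rw [← pow_mul, ← pow_add]
      congr 1
      ring
    have h2 : ((2 : ℝ) ^ E) ^ A ≤ X ^ (1 / 64 : ℝ) := by
      calc ((2 : ℝ) ^ E) ^ A ≤ (X ^ (1 / (64 * (A : ℝ)))) ^ A :=
            pow_le_pow_left₀ (by positivity) h2E A
        _ = X ^ (1 / 64 : ℝ) := by
            rw [← Real.rpow_natCast, ← Real.rpow_mul hX0.le]
            congr 1
            field_simp
    have h3 : (2 : ℝ) ^ A ≤ X ^ (1 / 64 : ℝ) := by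
      have h4 : ((2 : ℝ) ^ (64 * A)) ^ (1 / 64 : ℝ) ≤ X ^ (1 / 64 : ℝ) :=
        Real.rpow_le_rpow (by positivity) hX3 (by norm_num)
      have h5 : ((2 : ℝ) ^ (64 * A)) ^ (1 / 64 : ℝ) = (2 : ℝ) ^ A := by
        rw [← Real.rpow_natCast, ← Real.rpow_mul (by norm_num), ← Real.rpow_natCast]
        congr 1
        push_cast
        ring
      rw [h5] at h4
      exact h4
    rw [h1]
    calc (2 : ℝ) ^ A * ((2 : ℝ) ^ E) ^ A ≤ X ^ (1 / 64 : ℝ) * X ^ (1 / 64 : ℝ) :=
          mul_le_mul h3 h2 (by positivity) (by positivity)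
      _ = X ^ (1 / 32 : ℝ) := by
          rw [← Real.rpow_add hX0]
          norm_num
  -- the minorant
  have hSp : ∀ q ∈ S, q.Prime := fun q hq => (hS q hq).1
  have hS3 : ∀ q ∈ S, (3 : ℝ) ≤ q := fun q hq => by exact_mod_cast (hS q hq).2.1
  obtain ⟨l, hl1, hl2, hl3, hl4⟩ := hmin E S (fun q => 1 / ((q : ℝ) - 1))
    (fun q hq => ⟨hSp q hq, Nat.log_mono_right (hS q hq).2.2.1⟩)
    (fun q hq => by
      have h3 := hS3 q hq
      have h4 : (0 : ℝ) < (q : ℝ) - 1 := by linarith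
      refine ⟨by positivity, ?_, ?_⟩
      · apply one_div_le_one_div_of_le (by norm_num)
        linarith
      · rw [div_le_div_iff₀ h4 (by linarith)]
        linarith)
  have hw : ∀ p ∈ PX V X, 0 ≤ Real.log p * om V k X p := fun p _ =>
    mul_nonneg (Real.log_natCast_nonneg p) (om_nonneg V k X p)
  have hMnn : 0 ≤ Mass V k X := le_trans (by positivity) hm1
  have hsieve := sieve_lower (V := V) (X := X) (k := k) S (fun q hq => ⟨hSp q hq, (hS q hq).2.1⟩)
    r (fun q hq => (hS q hq).2.2.2) l ((E : ℝ) + 2) (L ^ k / L ^ 3) hl1 hl3 hl4 hw hMnn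
    (by
      intro b hb
      rw [hL]
      refine hBV X hX1 b _ ?_
      intro d hd
      obtain ⟨s, hs, rfl⟩ := mem_image.1 hd
      rw [mem_filter, mem_powerset] at hs
      refine ⟨squarefree_prod fun q hq => hSp q (hs.1 hq), ?_, hb s hs.1⟩
      have h1 := hl2 s hs.1 hs.2
      have h2 : (((∏ q ∈ s, q : ℕ)) : ℝ) ≤ (2 : ℝ) ^ (A * (E + 1)) := by exact_mod_cast h1
      exact h2.trans hD)
  -- the products
  obtain ⟨P, hPd⟩ : ∃ P, P = ∏ q ∈ S, (1 - 1 / (q : ℝ)) := ⟨_, rfl⟩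
  have hratio := prod_ratio S fun q hq => (hS q hq).2.1
  rw [← hPd] at hratio ⊢
  have hPpos : 0 < P := by
    rw [hPd]
    refine prod_pos fun q hq => ?_
    have h3 := hS3 q hq
    have : 1 / (q : ℝ) < 1 := by rw [div_lt_one (by linarith)]; linarith
    linarith
  have hPlow : 1 ≤ P * (C₃ * L) := by
    set Y := max y 2 with hY
    have h1 := hP Y (le_max_right _ _)
    have hYX : (Y : ℝ) ≤ X := by
      rw [hY]
      push_cast
      refine max_le ?_ ?_
      · refine hy.trans ?_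
        calc X ^ (1 / (64 * (A : ℝ))) ≤ X ^ (1 : ℝ) := by
              apply Real.rpow_le_rpow_of_exponent_le hXone
              rw [div_le_one (by positivity)]
              linarith
          _ = X := Real.rpow_one X
      · have := Real.add_one_le_exp (2 : ℝ)
        linarith
    have hY2 : (2 : ℝ) ≤ Y := by exact_mod_cast le_max_right y 2
    have h2 : Real.log Y ≤ L := by
      rw [hL]
      exact Real.log_le_log (by linarith) hYX
    have hsub : S ⊆ PL Y := by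
      intro q hq
      rw [mem_PL]
      exact ⟨(hS q hq).2.2.1.trans (le_max_left _ _), hSp q hq⟩
    have h3 : ∏ q ∈ S, (1 - 1 / (q : ℝ))⁻¹ ≤ ∏ q ∈ PL Y, (1 - 1 / (q : ℝ))⁻¹ := by
      have hone : ∀ q : ℕ, q.Prime → 1 ≤ (1 - 1 / (q : ℝ))⁻¹ := by
        intro q hq
        have hp1 : (1 : ℝ) < q := by exact_mod_cast hq.one_lt
        have h5 : 1 / (q : ℝ) < 1 := by rw [div_lt_one (by linarith)]; exact hp1
        have h6 : 0 < 1 / (q : ℝ) := by positivity
        rw [one_le_inv₀ (by linarith)]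
        linarith
      rw [← prod_sdiff hsub]
      have h5 : 1 ≤ ∏ q ∈ PL Y \ S, (1 - 1 / (q : ℝ))⁻¹ := by
        have h6 : ∏ q ∈ PL Y \ S, (1 : ℝ) ≤ ∏ q ∈ PL Y \ S, (1 - 1 / (q : ℝ))⁻¹ :=
          prod_le_prod (fun _ _ => zero_le_one) fun q hq =>
            hone q (mem_PL.1 (mem_sdiff.1 hq).1).2
        simpa using h6
      have h7 : 0 ≤ ∏ q ∈ S, (1 - 1 / (q : ℝ))⁻¹ :=
        prod_nonneg fun q hq => le_trans zero_le_one (hone q (hSp q hq))
      nlinarith
    have h4 : ∏ q ∈ S, (1 - 1 / (q : ℝ))⁻¹ = P⁻¹ := by rw [hPd, prod_inv_distrib]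
    rw [h4] at h3
    have h5 : P⁻¹ ≤ C₃ * L := h3.trans (h1.trans (mul_le_mul_of_nonneg_left h2 hC₃.le))
    have h6 : P * P⁻¹ = 1 := mul_inv_cancel₀ hPpos.ne'
    calc (1 : ℝ) = P * P⁻¹ := h6.symm
      _ ≤ P * (C₃ * L) := mul_le_mul_of_nonneg_left h5 hPpos.le
  -- the lower bound for the weighted sum
  have hlow : c / 8 * L ^ k * P ≤
      ∑ p ∈ (PX V X).filter (fun p : ℕ => ∀ q ∈ S, ¬ (q : ℤ) ∣ (p : ℤ) - r q),
        Real.log p * om V k X p := by
    refine le_trans ?_ hsieve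
    have hLk : 0 < L ^ k := by positivity
    have h1 : c * L ^ k * ((1 / 2) * ((1 / 2) * P)) ≤
        Mass V k X * ((1 / 2) * ∏ q ∈ S, (1 - 1 / ((q : ℝ) - 1))) := by
      refine mul_le_mul hm1 ?_ (by positivity) hMnn
      linarith
    have h2 : ((E : ℝ) + 2) * (L ^ k / L ^ 3) ≤ c / 8 * L ^ k * P := by
      have h3 : ((E : ℝ) + 2) * (L ^ k / L ^ 3) ≤ 2 * L * (L ^ k / L ^ 3) :=
        mul_le_mul_of_nonneg_right hEL (by positivity)
      have h4 : 2 * L * (L ^ k / L ^ 3) = 2 * L ^ k / L ^ 2 := by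
        field_simp
      rw [h4] at h3
      refine h3.trans ?_
      rw [div_le_iff₀ (by positivity)]
      have h5 : 16 * C₃ ≤ c * L := by
        rw [div_le_iff₀ hc] at hL5
        linarith
      have h6 : 16 ≤ c * P * L ^ 2 := by
        have h7 : 16 * C₃ * (P * L) ≤ c * L * (P * L) :=
          mul_le_mul_of_nonneg_right h5 (by positivity)
        have h8 : 16 ≤ 16 * C₃ * (P * L) := by nlinarith
        nlinarith
      nlinarith
    nlinarith
  -- the upper bound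
  have hup : ∑ p ∈ (PX V X).filter (fun p : ℕ => ∀ q ∈ S, ¬ (q : ℤ) ∣ (p : ℤ) - r q),
        Real.log p * om V k X p ≤
      ∑ p ∈ (PX V X).filter (fun p : ℕ => Real.exp (-V) * X < p ∧
        ∀ q ∈ S, ¬ (q : ℤ) ∣ (p : ℤ) - r q), C * L ^ (k + 1) / X := by
    rw [sum_filter, sum_filter]
    refine sum_le_sum fun p hp => ?_
    have hCnn : 0 ≤ C * L ^ (k + 1) / X := by positivity
    by_cases h1 : ∀ q ∈ S, ¬ (q : ℤ) ∣ (p : ℤ) - r q
    · rw [if_pos h1]
      by_cases h2 : om V k X p = 0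
      · rw [h2, mul_zero]
        split_ifs
        · exact hCnn
        · exact le_refl _
      · obtain ⟨h3, h4⟩ := hm2 p hp h2
        rw [if_pos ⟨h3, h1⟩]
        exact h4
    · rw [if_neg h1, if_neg fun h => h1 h.2]
  rw [sum_const, nsmul_eq_mul] at hup
  have h1 := hlow.trans hup
  rw [← hL]
  set n : ℝ := (((PX V X).filter (fun p : ℕ => Real.exp (-V) * X < p ∧
        ∀ q ∈ S, ¬ (q : ℤ) ∣ (p : ℤ) - r q)).card : ℝ) with hn
  have h2 : c / 8 * L ^ k * P * X ≤ n * (C * L ^ (k + 1)) := by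
    have h3 := mul_le_mul_of_nonneg_right h1 hX0.le
    have h4 : n * (C * L ^ (k + 1) / X) * X = n * (C * L ^ (k + 1)) := by
      field_simp
    rw [h4] at h3
    exact h3
  have h3 : c / (8 * C) * (X / L) * P = c / 8 * L ^ k * P * X / (C * L ^ (k + 1)) := by
    rw [pow_succ]
    field_simp
  rw [h3, div_le_iff₀ (by positivity)]
  exact h2

end Pool.Agent.Helper97.SW
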